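import Pool.Agent.W394.BQN.Stm

/-!
# BQN-V2: making the leading coefficient invertible (helper241)
-/

set_option autoImplicit false

open Polynomial

noncomputable section

namespace Pool.Agent.W241.BQN

open BQ Pool.Agent.W394.BQN

variable {D : Type} [CommRing D] [IsDomain D]

/-- `(p, r)` can be transformed into `(p', r')` -/
def Rch (p r p' r' : D[X]) : Prop :=
  ∃ M ∈ GG (VV D),
    algebraMap D[X] (VV D) p' =
      algebraMap D[X] (VV D) p * M 0 0 + algebraMap D[X] (VV D) r * M 1 0 ∧
    algebraMap D[X] (VV D) r' =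
      algebraMap D[X] (VV D) p * M 0 1 + algebraMap D[X] (VV D) r * M 1 1

theorem Rch.refl (p r : D[X]) : Rch p r p r :=
  ⟨1, (GG (VV D)).one_mem, by simp, by simp⟩

theorem Rch.trans {p r p' r' p'' r'' : D[X]} (h1 : Rch p r p' r') (h2 : Rch p' r' p'' r'') :
    Rch p r p'' r'' := by
  obtain ⟨M, hM, h1, h2'⟩ := h1
  obtain ⟨N, hN, h3, h4⟩ := h2
  refine ⟨M * N, (GG (VV D)).mul_mem hM hN, ?_, ?_⟩
  · rw [h3, h1, h2', Matrix.mul_apply, Matrix.mul_apply, Fin.sum_univ_two, Fin.sum_univ_two]
    ring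
  · rw [h4, h1, h2', Matrix.mul_apply, Matrix.mul_apply, Fin.sum_univ_two, Fin.sum_univ_two]
    ring

theorem Rch.addR (p r q : D[X]) : Rch p r p (r + q * p) := by
  refine ⟨!![1, algebraMap D[X] (VV D) q; 0, 1], Submonoid.subset_closure (Or.inl ⟨_, rfl⟩), ?_, ?_⟩
  · simp
  · simp; ring

theorem Rch.addL (p r q : D[X]) : Rch p r (p + q * r) r := by
  refine ⟨!![1, 0; algebraMap D[X] (VV D) q, 1],
    Submonoid.subset_closure (Or.inr (Or.inl ⟨_, rfl⟩)), ?_, ?_⟩
  · simp; ring
  · simp

theorem X_mem : (X : D[X]) ∈ S2 D := by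
  refine ⟨leadingCoeff_X, ?_⟩
  rw [trailingCoeff, natTrailingDegree_X, coeff_X_one]

theorem unit_X : IsUnit (algebraMap D[X] (VV D) X) :=
  IsLocalization.map_units (VV D) (⟨X, X_mem⟩ : S2 D)

theorem Rch.scale (p r : D[X]) (i j : ℕ) : Rch p r (X ^ i * p) (X ^ j * r) := by
  refine ⟨!![(algebraMap D[X] (VV D) X) ^ i, 0; 0, (algebraMap D[X] (VV D) X) ^ j],
    Submonoid.subset_closure (Or.inr (Or.inr ⟨_, _, unit_X.pow i, unit_X.pow j, rfl⟩)), ?_, ?_⟩
  · simp; ring
  · simp; ring

theorem Rch.swap (p r : D[X]) : Rch p r (-r) p := by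
  have h1 := Rch.addR p r 1
  have h2 := Rch.addL p (r + 1 * p) (-1)
  have h3 := Rch.addR (p + -1 * (r + 1 * p)) (r + 1 * p) 1
  have h := (h1.trans h2).trans h3
  have e1 : p + -1 * (r + 1 * p) = -r := by ring
  have e2 : r + 1 * p + 1 * (p + -1 * (r + 1 * p)) = p := by ring
  rw [e2, e1] at h
  exact h

theorem E2_map {R S : Type} [CommRing R] [CommRing S] (φ : R →+* S) {M : Matrix (Fin 2) (Fin 2) R}
    (hM : M ∈ E2 R) : M.map φ ∈ GG S := by
  have h : E2 R ≤ (GG S).comap (φ.mapMatrix : Matrix (Fin 2) (Fin 2) R →+* _).toMonoidHom := by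
    unfold E2
    rw [Submonoid.closure_le]
    rintro N (⟨c, rfl⟩ | ⟨c, rfl⟩)
    · refine Submonoid.subset_closure (Or.inl ⟨φ c, ?_⟩)
      ext i j
      fin_cases i <;> fin_cases j <;> simp
    · refine Submonoid.subset_closure (Or.inr (Or.inl ⟨φ c, ?_⟩))
      ext i j
      fin_cases i <;> fin_cases j <;> simp
  exact h hM

theorem E2_det {R : Type} [CommRing R] {M : Matrix (Fin 2) (Fin 2) R}
    (hM : M ∈ E2 R) : M.det = 1 := by
  have h : E2 R ≤ MonoidHom.mker (Matrix.detMonoidHom : Matrix (Fin 2) (Fin 2) R →* R) := by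
    unfold E2
    rw [Submonoid.closure_le]
    rintro N (⟨c, rfl⟩ | ⟨c, rfl⟩)
    · show Matrix.det (!![1, c; 0, 1] : Matrix (Fin 2) (Fin 2) R) = 1
      simp [Matrix.det_fin_two]
    · show Matrix.det (!![1, 0; c, 1] : Matrix (Fin 2) (Fin 2) R) = 1
      simp [Matrix.det_fin_two]
  exact h hM

theorem Rch.mat (p r : D[X]) {M : Matrix (Fin 2) (Fin 2) D} (hM : M ∈ E2 D) :
    Rch p r (p * C (M 0 0) + r * C (M 1 0)) (p * C (M 0 1) + r * C (M 1 1)) := by
  refine ⟨M.map ((algebraMap D[X] (VV D)).comp C), E2_map _ hM, ?_, ?_⟩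
  · simp [Matrix.map_apply]
  · simp [Matrix.map_apply]

/-- the pair generates an ideal meeting `S2` -/
def HH (p r : D[X]) : Prop := ∃ x y : D[X], p * x + r * y ∈ S2 D

theorem X_pow_mul_mem {f : D[X]} (hf : f ∈ S2 D) (k : ℕ) : X ^ k * f ∈ S2 D :=
  (S2 D).mul_mem ((S2 D).pow_mem X_mem k) hf

theorem HH.mat {p r : D[X]} (h : HH p r) {M : Matrix (Fin 2) (Fin 2) D} (hM : M ∈ E2 D) :
    HH (p * C (M 0 0) + r * C (M 1 0)) (p * C (M 0 1) + r * C (M 1 1)) := by
  obtain ⟨x, y, h⟩ := h
  have hd := E2_det hM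
  rw [Matrix.det_fin_two] at hd
  have hd' : (C (M 0 0) * C (M 1 1) - C (M 0 1) * C (M 1 0) : D[X]) = 1 := by
    rw [← C_mul, ← C_mul, ← C_sub, hd, C_1]
  refine ⟨C (M 1 1) * x - C (M 0 1) * y, C (M 0 0) * y - C (M 1 0) * x, ?_⟩
  have e : (p * C (M 0 0) + r * C (M 1 0)) * (C (M 1 1) * x - C (M 0 1) * y) +
      (p * C (M 0 1) + r * C (M 1 1)) * (C (M 0 0) * y - C (M 1 0) * x) =
      (C (M 0 0) * C (M 1 1) - C (M 0 1) * C (M 1 0)) * (p * x + r * y) := by ring
  rw [e, hd', one_mul]
  exact h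

/-- killing leading coefficients -/
theorem kill (p : D[X]) (hp : p ≠ 0) : ∀ (N : ℕ) (b : D[X]), b.natDegree ≤ N →
    ∃ q : D[X], (b + q * p ≠ 0 ∧ ¬ p.leadingCoeff ∣ (b + q * p).leadingCoeff) ∨
      (b + q * p).degree < p.degree := by
  intro N
  induction N with
  | zero =>
    intro b hb
    by_cases h1 : b.degree < p.degree
    · exact ⟨0, Or.inr (by simpa using h1)⟩
    by_cases h0 : b = 0
    · exact ⟨0, Or.inr (by rw [h0]; simpa [bot_lt_iff_ne_bot] using hp)⟩
    by_cases h2 : p.leadingCoeff ∣ b.leadingCoeff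
    · obtain ⟨c, hc⟩ := h2
      refine ⟨-C c, Or.inr ?_⟩
      have hpd : p.natDegree = 0 := by
        have := natDegree_le_natDegree (not_lt.1 h1)
        omega
      have hbd : b.natDegree = 0 := by omega
      rw [eq_C_of_natDegree_eq_zero hpd, eq_C_of_natDegree_eq_zero hbd]
      rw [leadingCoeff, hbd, leadingCoeff, hpd] at hc
      have : C (b.coeff 0) + -C c * C (p.coeff 0) = 0 := by
        rw [hc, ← C_neg, ← C_mul, ← C_add]
        simp [mul_comm]
      rw [this]
      rw [degree_zero, bot_lt_iff_ne_bot, Ne, degree_eq_bot, ← eq_C_of_natDegree_eq_zero hpd]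
      exact hp
    · exact ⟨0, Or.inl (by simpa using ⟨h0, h2⟩)⟩
  | succ N ih =>
    intro b hb
    by_cases h1 : b.degree < p.degree
    · exact ⟨0, Or.inr (by simpa using h1)⟩
    by_cases h0 : b = 0
    · exact ⟨0, Or.inr (by rw [h0]; simpa [bot_lt_iff_ne_bot] using hp)⟩
    by_cases h2 : p.leadingCoeff ∣ b.leadingCoeff
    · obtain ⟨c, hc⟩ := h2
      have hle : p.natDegree ≤ b.natDegree := natDegree_le_natDegree (not_lt.1 h1)
      have hc0 : c ≠ 0 := by
        rintro rfl
        rw [mul_zero, leadingCoeff_eq_zero] at hc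
        exact h0 hc
      set t : D[X] := C c * X ^ (b.natDegree - p.natDegree) * p with ht
      have hlt : (b - t).degree < b.degree := by
        apply degree_sub_lt_left
        · rw [ht, degree_mul, degree_C_mul_X_pow _ hc0, degree_eq_natDegree h0,
            degree_eq_natDegree hp, ← Nat.cast_add]
          congr 1
          omega
        · exact h0
        · rw [ht, leadingCoeff_mul, leadingCoeff_C_mul_X_pow, hc, mul_comm]
      have hbt : (b - t).natDegree ≤ N ∨ b - t = 0 := by
        by_cases hz : b - t = 0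
        · exact Or.inr hz
        · left
          have := natDegree_lt_natDegree hz hlt
          omega
      have hN : (b - t).natDegree ≤ N := by
        rcases hbt with h | h
        · exact h
        · rw [h]; simp
      obtain ⟨q, hq⟩ := ih (b - t) hN
      refine ⟨q - C c * X ^ (b.natDegree - p.natDegree), ?_⟩
      have e : b + (q - C c * X ^ (b.natDegree - p.natDegree)) * p = b - t + q * p := by
        rw [ht]; ring
      rw [e]
      exact hq
    · exact ⟨0, Or.inl (by simpa using ⟨h0, h2⟩)⟩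

/-- the induction step -/
theorem step [IsPrincipalIdealRing D] (hE : E2T D) (p r : D[X]) (hp : p ≠ 0) (h : HH p r)
    (hu : ¬ IsUnit p.leadingCoeff) :
    ∃ p' r' : D[X], Rch p r p' r' ∧ HH p' r' ∧ p' ≠ 0 ∧
      Ideal.span {p.leadingCoeff} < Ideal.span {p'.leadingCoeff} := by
  obtain ⟨x, y, hf⟩ := h
  set f := p * x + r * y with hfdef
  have hf0 : f ≠ 0 := by
    intro h0
    have := hf.1
    rw [h0, leadingCoeff_zero] at this
    exact zero_ne_one this
  set M : ℕ := p.natDegree + y.natDegree + 1 with hM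
  obtain ⟨q, hq⟩ := kill p hp _ (X ^ M * r) le_rfl
  set b := X ^ M * r + q * p with hb
  have hXf : X ^ M * f = p * (X ^ M * x - q * y) + b * y := by
    rw [hfdef, hb]; ring
  rcases hq with ⟨hb0, hnd⟩ | hlt
  · -- main case
    set g := p.leadingCoeff with hg
    set hh := b.leadingCoeff with hhdef
    have hg0 : g ≠ 0 := leadingCoeff_ne_zero.2 hp
    obtain ⟨d, hd⟩ := (IsPrincipalIdealRing.principal (Ideal.span {g, hh})).principal
    have hd' : Ideal.span {g, hh} = Ideal.span {d} := hd
    have hgd : d ∣ g := by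
      rw [← Ideal.mem_span_singleton, ← hd']
      exact Ideal.subset_span (by simp)
    have hhd : d ∣ hh := by
      rw [← Ideal.mem_span_singleton, ← hd']
      exact Ideal.subset_span (by simp)
    have hd0 : d ≠ 0 := by
      rintro rfl
      exact hg0 (zero_dvd_iff.1 hgd)
    obtain ⟨g1, hg1⟩ := hgd
    obtain ⟨h1, hh1⟩ := hhd
    have hcop : IsCoprime g1 h1 := by
      have : d ∈ Ideal.span {g, hh} := by rw [hd']; exact Ideal.mem_span_singleton_self d
      rw [Ideal.mem_span_pair] at this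
      obtain ⟨u, v, huv⟩ := this
      refine ⟨u, v, ?_⟩
      apply mul_left_cancel₀ hd0
      rw [mul_one]
      calc d * (u * g1 + v * h1) = u * (d * g1) + v * (d * h1) := by ring
        _ = d := by rw [← hg1, ← hh1, huv]
    obtain ⟨N, hN, hN1, hN2⟩ := hE g1 h1 hcop
    set p1 := X ^ b.natDegree * p with hp1
    set b1 := X ^ p.natDegree * b with hb1
    refine ⟨p1 * C (N 0 0) + b1 * C (N 1 0), p1 * C (N 0 1) + b1 * C (N 1 1), ?_, ?_, ?_, ?_⟩
    · have s1 : Rch p r (X ^ 0 * p) (X ^ M * r) := Rch.scale p r 0 M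
      rw [pow_zero, one_mul] at s1
      have s2 : Rch p (X ^ M * r) p b := Rch.addR p (X ^ M * r) q
      have s3 : Rch p b p1 b1 := Rch.scale p b _ _
      exact ((s1.trans s2).trans s3).trans (Rch.mat p1 b1 hN)
    · apply HH.mat _ hN
      refine ⟨X ^ p.natDegree * (X ^ M * x - q * y), X ^ b.natDegree * y, ?_⟩
      have e : p1 * (X ^ p.natDegree * (X ^ M * x - q * y)) + b1 * (X ^ b.natDegree * y) =
          X ^ (b.natDegree + p.natDegree) * (X ^ M * f) := by
        rw [hXf, hp1, hb1]; ring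
      rw [e]
      exact X_pow_mul_mem (X_pow_mul_mem hf _) _
    all_goals
      have hp1d : p1.natDegree = b.natDegree + p.natDegree := by
        rw [hp1, natDegree_mul (pow_ne_zero _ X_ne_zero) hp, natDegree_X_pow]
      have hb1d : b1.natDegree = b.natDegree + p.natDegree := by
        rw [hb1, natDegree_mul (pow_ne_zero _ X_ne_zero) hb0, natDegree_X_pow, add_comm]
      have hp1c : p1.coeff (b.natDegree + p.natDegree) = g := by
        rw [← hp1d, coeff_natDegree, hp1, leadingCoeff_mul, leadingCoeff_X_pow, one_mul]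
      have hb1c : b1.coeff (b.natDegree + p.natDegree) = hh := by
        rw [← hb1d, coeff_natDegree, hb1, leadingCoeff_mul, leadingCoeff_X_pow, one_mul]
      have hc : (p1 * C (N 0 0) + b1 * C (N 1 0)).coeff (b.natDegree + p.natDegree) = d := by
        rw [coeff_add, coeff_mul_C, coeff_mul_C, hp1c, hb1c]
        calc g * N 0 0 + hh * N 1 0 = d * (g1 * N 0 0 + h1 * N 1 0) := by
              conv_lhs => rw [hg1, hh1]
              ring
          _ = d := by rw [hN1, mul_one]
      have hdeg : (p1 * C (N 0 0) + b1 * C (N 1 0)).natDegree ≤ b.natDegree + p.natDegree := by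
        apply natDegree_add_le_of_degree_le
        · exact (natDegree_mul_C_le _ _).trans hp1d.le
        · exact (natDegree_mul_C_le _ _).trans hb1d.le
      have hlc : (p1 * C (N 0 0) + b1 * C (N 1 0)).leadingCoeff = d := by
        have hge : b.natDegree + p.natDegree ≤ (p1 * C (N 0 0) + b1 * C (N 1 0)).natDegree :=
          le_natDegree_of_ne_zero (by rw [hc]; exact hd0)
        rw [leadingCoeff, le_antisymm hdeg hge, hc]
    · rw [← leadingCoeff_ne_zero, hlc]
      exact hd0
    · rw [hlc]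
      refine lt_of_le_of_ne ?_ ?_
      · rw [Ideal.span_singleton_le_span_singleton]
        exact ⟨g1, hg1⟩
      · intro heq
        apply hnd
        have : d ∈ Ideal.span {g} := by rw [heq]; exact Ideal.mem_span_singleton_self d
        rw [Ideal.mem_span_singleton] at this
        exact this.trans ⟨h1, hh1⟩
  · -- the leading coefficient is a unit
    exfalso
    apply hu
    have hXf0 : X ^ M * f ≠ 0 := mul_ne_zero (pow_ne_zero _ X_ne_zero) hf0
    have hdegXf : (X ^ M * f).natDegree = M + f.natDegree := by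
      rw [natDegree_mul (pow_ne_zero _ X_ne_zero) hf0, natDegree_X_pow]
    have hby : (b * y).degree < (X ^ M * f).degree := by
      by_cases hy : y = 0
      · rw [hy, mul_zero, degree_zero, bot_lt_iff_ne_bot, Ne, degree_eq_bot]
        exact hXf0
      by_cases hbz : b = 0
      · rw [hbz, zero_mul, degree_zero, bot_lt_iff_ne_bot, Ne, degree_eq_bot]
        exact hXf0
      rw [degree_eq_natDegree (mul_ne_zero hbz hy), degree_eq_natDegree hXf0, hdegXf,
        natDegree_mul hbz hy]
      have := natDegree_lt_natDegree hbz hlt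
      rw [Nat.cast_lt]
      omega
    have hpx : (p * (X ^ M * x - q * y)).leadingCoeff = 1 := by
      have e : p * (X ^ M * x - q * y) = X ^ M * f - b * y := by rw [hXf]; ring
      rw [e, leadingCoeff_sub_of_degree_lt hby, leadingCoeff_mul, leadingCoeff_X_pow, one_mul]
      exact hf.1
    rw [leadingCoeff_mul] at hpx
    exact IsUnit.of_mul_eq_one _ hpx

theorem main [IsPrincipalIdealRing D] (hE : E2T D) : ∀ (I : Ideal D) (p r : D[X]), p ≠ 0 →
    HH p r → Ideal.span {p.leadingCoeff} = I →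
    ∃ p' r' : D[X], Rch p r p' r' ∧ IsUnit p'.leadingCoeff := by
  intro I
  induction I using WellFoundedGT.induction with
  | ind I ih =>
    intro p r hp h hI
    by_cases hu : IsUnit p.leadingCoeff
    · exact ⟨p, r, Rch.refl p r, hu⟩
    obtain ⟨p1, r1, h1, h2, h3, h4⟩ := step hE p r hp h hu
    rw [hI] at h4
    obtain ⟨p2, r2, h5, h6⟩ := ih _ h4 p1 r1 h3 h2 rfl
    exact ⟨p2, r2, h1.trans h5, h6⟩

theorem t_V2 : S_V2 := by
  intro D _ _ _ hE p r x y hf
  have hf0 : p * x + r * y ≠ 0 := by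
    intro h0
    have := hf.1
    rw [h0, leadingCoeff_zero] at this
    exact zero_ne_one this
  have key : ∃ p' r' : D[X], Rch p r p' r' ∧ IsUnit p'.leadingCoeff := by
    by_cases hp : p = 0
    · have hr : -r ≠ 0 := by
        intro hr
        apply hf0
        rw [hp, neg_eq_zero.1 hr]
        ring
      have hH : HH (-r) p := ⟨-y, x, by
        have : -r * -y + p * x = p * x + r * y := by ring
        rw [this]
        exact hf⟩
      obtain ⟨p', r', h1, h2⟩ := main hE _ (-r) p hr hH rfl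
      exact ⟨p', r', (Rch.swap p r).trans h1, h2⟩
    · exact main hE _ p r hp ⟨x, y, hf⟩ rfl
  obtain ⟨p', r', ⟨M, hM, h1, h2⟩, hu⟩ := key
  exact ⟨M, hM, p', r', hu, h1, h2⟩

end Pool.Agent.W241.BQN
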